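import Pool.Agent.helper32.EX.SpecD

set_option autoImplicit false

namespace Pool.Agent.EX

theorem SGA (hMXR : MXR_stmt) (hNWE : NWE_stmt) (hWTR : WTR_stmt) (hXRM : XRM_stmt) : SGA_stmt := by
  intro n C _ F _ θ hθ β
  obtain ⟨w, hw, hwβ⟩ := hWTR C θ hθ β
  obtain ⟨g, hg, -, hm⟩ := hNWE C F w⁻¹ ((W C).inv_mem hw)
  refine ⟨⟨g, hg⟩, ?_⟩
  have h1 := hMXR C F ⟨g, hg⟩ w⁻¹ hm θ
  have h2 : w⁻¹ θ = β := by
    rw [← hwβ]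
    exact w.symm_apply_apply β
  rw [h1, h2]

end Pool.Agent.EX
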